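import Pool.Agent.H65.CF.T7
import Pool.Agent.H72.CFH.CHM
import Pool.Agent.H88.AD.HQB

/-!
# MP_347b49_nt, row LRB: bounds for the Euler product
-/

set_option autoImplicit false

namespace Pool.Agent.H51.CFH

open Pool.Agent.H31.CN Pool.Agent.H65.AD Pool.Agent.H65.CF

theorem pf_LRB : T_LRB := by
  obtain ⟨C, hC, hM⟩ := Pool.Agent.H88.AD.mertens_prod
  refine ⟨C⁻¹, by positivity, ?_⟩
  intro R D hR
  have hset : (primorial R).primeFactors = (Finset.Icc 1 R).filter Nat.Prime := by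
    ext p
    rw [Nat.mem_primeFactors, Finset.mem_filter, Finset.mem_Icc]
    constructor
    · rintro ⟨hp, hd, -⟩
      exact ⟨⟨hp.one_lt.le, hp.dvd_primorial_iff.1 hd⟩, hp⟩
    · rintro ⟨⟨-, h⟩, hp⟩
      exact ⟨hp, hp.dvd_primorial_iff.2 h, primorial_ne_zero R⟩
  have h1 := hM R hR
  rw [hset] at h1
  have hlR : (0 : ℝ) < Real.log R := Real.log_pos (by exact_mod_cast (by omega : 1 < R))
  have hp : ∀ p ∈ (Finset.Icc 1 R).filter Nat.Prime,
      0 < 1 - 1 / (p : ℝ) ∧ 1 - 1 / (p : ℝ) ≤ 1 - ((ch p D : ℤ) : ℝ) / p ∧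
        1 - ((ch p D : ℤ) : ℝ) / p ≤ (1 - 1 / (p : ℝ))⁻¹ := by
    intro p hp
    have hpp := (Finset.mem_filter.1 hp).2
    have hp2 : (2 : ℝ) ≤ p := by exact_mod_cast hpp.two_le
    have hp0 : (0 : ℝ) < p := by linarith
    have h2 := abs_le.1 (Pool.Agent.H72.CFH.ch_abs hpp D)
    have h3 : 1 / (p : ℝ) ≤ 1 / 2 := one_div_le_one_div_of_le two_pos hp2
    have h4 : (0 : ℝ) < 1 / p := by positivity
    have h5 : ((ch p D : ℤ) : ℝ) / p ≤ 1 / p := div_le_div_of_nonneg_right h2.2 hp0.le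
    have h6 : -(1 / (p : ℝ)) ≤ ((ch p D : ℤ) : ℝ) / p := by
      rw [← neg_div]
      exact div_le_div_of_nonneg_right h2.1 hp0.le
    refine ⟨by linarith, by linarith, ?_⟩
    rw [le_inv_comm₀ (by linarith) (by linarith)]
    have h7 : 0 < 1 - ((ch p D : ℤ) : ℝ) / p := by linarith
    rw [← one_div, le_div_iff₀ h7]
    nlinarith
  have hM0 : 0 < ∏ p ∈ (Finset.Icc 1 R).filter Nat.Prime, (1 - 1 / (p : ℝ))⁻¹ :=
    Finset.prod_pos fun p h => inv_pos.2 (hp p h).1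
  constructor
  · have h2 : (∏ p ∈ (Finset.Icc 1 R).filter Nat.Prime, (1 - 1 / (p : ℝ))⁻¹)⁻¹ ≤ LR R D := by
      unfold LR
      rw [← Finset.prod_inv_distrib]
      refine Finset.prod_le_prod (fun p h => ?_) fun p h => ?_
      · rw [inv_inv]
        exact (hp p h).1.le
      · obtain ⟨g1, g2, g3⟩ := hp p h
        exact inv_anti₀ (by linarith) g3
    refine le_trans ?_ h2
    rw [div_eq_mul_inv, ← mul_inv]
    exact inv_anti₀ hM0 h1
  · rw [inv_inv]
    refine le_trans ?_ h1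
    unfold LR
    refine Finset.prod_le_prod (fun p h => ?_) fun p h => ?_
    · obtain ⟨g1, g2, g3⟩ := hp p h
      exact inv_nonneg.2 (by linarith)
    · obtain ⟨g1, g2, g3⟩ := hp p h
      exact inv_anti₀ g1 g2

end Pool.Agent.H51.CFH
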