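import Pool.Agent.H65.CF.T6
import Pool.Agent.H51.AD.ZVR

/-!
# Complete family: the variance of the first moment (ZVA)
-/

set_option autoImplicit false

open MeasureTheory Set Filter
open scoped Real
open Pool.Agent.H31.CN Pool.Agent.H95.AD Pool.Agent.H50.CN Pool.Agent.H65.AD Pool.Agent.H91.CF
open Pool.Agent.H65.CF Pool.Agent.H51.ADM

namespace Pool.Agent.H51.CFH

lemma sieveT {CQ : ℝ} (hCQ : 0 < CQ)
    (hQ : ∀ (X : ℝ) (Y : ℕ) (s : Finset ℕ) (b : ℕ → ℝ), 1 ≤ X →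
      (∀ r ∈ s, 2 ≤ r ∧ r ≤ Y ∧ Odd r ∧ Squarefree r) →
      ∑ D ∈ Finset.Icc 1 ⌊X⌋₊, (∑ r ∈ s, b r * xD r D) ^ 2 ≤
        CQ * (X + (Y : ℝ) ^ 2) * ∑ r ∈ s, b r ^ 2) {X θ : ℝ} {T : Finset ℕ}
    (hT : T ⊆ Finset.Icc 1 ⌊X⌋₊) (hX : 1 ≤ X)
    (hθ' : θ < 1 / 4) (s : Finset ℕ)
    (hs : ∀ r ∈ s, 2 ≤ r ∧ r ≤ ⌊X ^ θ⌋₊ ∧ Odd r ∧ Squarefree r) (b : ℕ → ℝ) :
    ∑ D ∈ T, (∑ r ∈ s, xD r D * b r) ^ 2 ≤ 2 * CQ * X * ∑ r ∈ s, b r ^ 2 := by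
  have hX0 : 0 < X := by linarith
  have h1 : (⌊X ^ θ⌋₊ : ℝ) ^ 2 ≤ X := by
    have h2 : (⌊X ^ θ⌋₊ : ℝ) ≤ X ^ θ := Nat.floor_le (by positivity)
    calc (⌊X ^ θ⌋₊ : ℝ) ^ 2 ≤ (X ^ θ) ^ 2 := pow_le_pow_left₀ (Nat.cast_nonneg _) h2 2
      _ = X ^ (θ * 2) := by
          rw [Real.rpow_mul hX0.le]
          norm_num
      _ ≤ X ^ (1 : ℝ) := Real.rpow_le_rpow_of_exponent_le hX (by linarith)
      _ = X := Real.rpow_one X
  have hb0 : 0 ≤ ∑ r ∈ s, b r ^ 2 := Finset.sum_nonneg fun r _ => sq_nonneg _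
  calc ∑ D ∈ T, (∑ r ∈ s, xD r D * b r) ^ 2
      ≤ ∑ D ∈ Finset.Icc 1 ⌊X⌋₊, (∑ r ∈ s, xD r D * b r) ^ 2 :=
        Finset.sum_le_sum_of_subset_of_nonneg hT fun _ _ _ => sq_nonneg _
    _ = ∑ D ∈ Finset.Icc 1 ⌊X⌋₊, (∑ r ∈ s, b r * xD r D) ^ 2 := by
        refine Finset.sum_congr rfl fun D _ => ?_
        congr 1
        exact Finset.sum_congr rfl fun r _ => mul_comm _ _
    _ ≤ CQ * (X + (⌊X ^ θ⌋₊ : ℝ) ^ 2) * ∑ r ∈ s, b r ^ 2 := hQ X _ s b hX hs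
    _ ≤ 2 * CQ * X * ∑ r ∈ s, b r ^ 2 := by
        refine mul_le_mul_of_nonneg_right ?_ hb0
        nlinarith

/-- the pointwise bound -/
lemma ptwW {Z z0 w ρ L a0 a1 v0 v1 CE C3 l x κ : ℝ} (hw0 : 0 ≤ w) (hw1 : w ≤ 1)
    (hρ0 : 0 < ρ) (hρ1 : ρ ≤ 1) (hCE : 0 ≤ CE)
    (h0 : |Z - w * (ρ * (L * (a0 + v0) - (a1 + v1)))| ≤ CE * |a0 + v0| + x)
    (h1 : |a0| ≤ C3 / l) (h2 : |L * a0 - a1 - ρ⁻¹ * z0| ≤ C3 / l) (hL : |L| ≤ (κ + 1) * l)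
    (hκ : 0 ≤ κ) :
    (Z - w * z0) ^ 2 ≤ 6 * (κ + 1) ^ 2 * (ρ ^ 2 * ((l * v0) ^ 2 + v1 ^ 2)) + 3 * CE ^ 2 * v0 ^ 2 +
      3 * ((C3 + CE * C3) / l + x) ^ 2 := by
  have h3 : |Z - w * z0| ≤ ρ * (κ + 1) * (l * |v0| + |v1|) + CE * |v0| + ((C3 + CE * C3) / l + x) := by
    have e : Z - w * z0 = (Z - w * (ρ * (L * (a0 + v0) - (a1 + v1)))) +
        w * (ρ * (L * a0 - a1 - ρ⁻¹ * z0) + (ρ * (L * v0) + -(ρ * v1))) := by
      have : ρ * ρ⁻¹ = 1 := mul_inv_cancel₀ hρ0.ne'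
      linear_combination w * z0 * this
    have tw : |w * (ρ * (L * a0 - a1 - ρ⁻¹ * z0) + (ρ * (L * v0) + -(ρ * v1)))| ≤
        |ρ * (L * a0 - a1 - ρ⁻¹ * z0) + (ρ * (L * v0) + -(ρ * v1))| := by
      rw [abs_mul, abs_of_nonneg hw0]
      exact mul_le_of_le_one_left (abs_nonneg _) hw1
    have t1 : |ρ * (L * a0 - a1 - ρ⁻¹ * z0)| ≤ C3 / l := by
      rw [abs_mul, abs_of_pos hρ0]
      have := mul_le_mul hρ1 h2 (abs_nonneg _) (by norm_num)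
      linarith
    have t2 : |ρ * (L * v0)| ≤ ρ * (κ + 1) * (l * |v0|) := by
      rw [abs_mul, abs_mul, abs_of_pos hρ0]
      have := mul_le_mul_of_nonneg_left (mul_le_mul_of_nonneg_right hL (abs_nonneg v0)) hρ0.le
      calc _ ≤ _ := this
        _ = _ := by ring
    have t3 : |-(ρ * v1)| ≤ ρ * (κ + 1) * |v1| := by
      rw [abs_neg, abs_mul, abs_of_pos hρ0]
      have : 0 ≤ ρ * κ * |v1| := by positivity
      nlinarith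
    have t4 : CE * |a0 + v0| ≤ CE * (C3 / l) + CE * |v0| := by
      have := abs_add_le a0 v0
      rw [← mul_add]
      exact mul_le_mul_of_nonneg_left (by linarith) hCE
    have t5 := abs_add_le (Z - w * (ρ * (L * (a0 + v0) - (a1 + v1))))
      (w * (ρ * (L * a0 - a1 - ρ⁻¹ * z0) + (ρ * (L * v0) + -(ρ * v1))))
    have t6 := abs_add_le (ρ * (L * a0 - a1 - ρ⁻¹ * z0)) (ρ * (L * v0) + -(ρ * v1))
    have t7 := abs_add_le (ρ * (L * v0)) (-(ρ * v1))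
    rw [← e] at t5
    have e2 : (C3 + CE * C3) / l = C3 / l + CE * (C3 / l) := by ring
    rw [e2]
    linarith
  obtain ⟨A, hA⟩ : ∃ A : ℝ, A = ρ * (κ + 1) * (l * |v0| + |v1|) := ⟨_, rfl⟩
  obtain ⟨B, hB⟩ : ∃ B : ℝ, B = CE * |v0| := ⟨_, rfl⟩
  obtain ⟨E, hE⟩ : ∃ E : ℝ, E = (C3 + CE * C3) / l + x := ⟨_, rfl⟩
  rw [← hA, ← hB, ← hE] at h3
  rw [← hE]
  have h4 : (Z - w * z0) ^ 2 ≤ (A + B + E) ^ 2 := by
    rw [← sq_abs (Z - w * z0)]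
    exact pow_le_pow_left₀ (abs_nonneg _) h3 2
  have h5 : (A + B + E) ^ 2 ≤ 3 * (A ^ 2 + B ^ 2 + E ^ 2) := by
    nlinarith [sq_nonneg (A - B), sq_nonneg (B - E), sq_nonneg (A - E)]
  have h6 : A ^ 2 ≤ 2 * (κ + 1) ^ 2 * (ρ ^ 2 * ((l * v0) ^ 2 + v1 ^ 2)) := by
    have e1 : (l * v0) ^ 2 = (l * |v0|) ^ 2 := by rw [mul_pow, mul_pow, sq_abs]
    have e2 : v1 ^ 2 = |v1| ^ 2 := (sq_abs v1).symm
    rw [e1, e2, hA]
    have h7 : (l * |v0| + |v1|) ^ 2 ≤ 2 * ((l * |v0|) ^ 2 + |v1| ^ 2) := by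
      nlinarith [sq_nonneg (l * |v0| - |v1|)]
    calc (ρ * (κ + 1) * (l * |v0| + |v1|)) ^ 2 = (ρ * (κ + 1)) ^ 2 * (l * |v0| + |v1|) ^ 2 := by
          ring
      _ ≤ (ρ * (κ + 1)) ^ 2 * (2 * ((l * |v0|) ^ 2 + |v1| ^ 2)) :=
          mul_le_mul_of_nonneg_left h7 (sq_nonneg _)
      _ = _ := by ring
  have h8 : B ^ 2 = CE ^ 2 * v0 ^ 2 := by rw [hB, mul_pow, sq_abs]
  nlinarith

theorem pf_ZVA (hZCF : T_ZCF) (hQLS : T_QLS) (hMU3 : T_MU3) : T_ZVA := by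
  intro P θ η ε hP hθ hθ' hη hε
  obtain ⟨K, hK, hZCF'⟩ := hZCF P hP
  obtain ⟨CQ, hCQ, hQ⟩ := hQLS
  obtain ⟨κ, hκ⟩ : ∃ κ : ℝ, κ = 1 / (2 * θ) := ⟨_, rfl⟩
  have hκ0 : 0 < κ := by rw [hκ]; positivity
  obtain ⟨W, hW⟩ : ∃ W : ℝ, W = 6 * (κ + 1) ^ 2 * (2 * CQ) * (2 * K) ^ 2 := ⟨_, rfl⟩
  have hW0 : 0 < W := by rw [hW]; positivity
  obtain ⟨R₀, hR₀, htail⟩ := tail_bd (δ := min 1 (ε / 3 / W)) (lt_min one_pos (by positivity))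
  refine ⟨R₀, fun R hR CE hCE => ?_⟩
  have hR2 : 900 ≤ R := hR₀.trans hR
  obtain ⟨N, hN⟩ : ∃ N : ℕ, N = primorial R := ⟨_, rfl⟩
  have hN1 : 1 ≤ N := by rw [hN]; exact primorial_pos _
  have hN2 : 2 ∣ N := by
    rw [hN]
    exact Nat.prime_two.dvd_primorial_iff.2 (by omega)
  have hNs : Squarefree N := by rw [hN]; exact squarefree_primorial _
  obtain ⟨ρ, hρ⟩ : ∃ ρ : ℝ, ρ = ∏ p ∈ N.primeFactors, (1 - 1 / (p : ℝ)) := ⟨_, rfl⟩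
  have hfac : ∀ p ∈ N.primeFactors, 0 < 1 - 1 / (p : ℝ) ∧ 1 - 1 / (p : ℝ) ≤ 1 := by
    intro p hp
    have h2 : (1 : ℝ) < p := by exact_mod_cast (Nat.prime_of_mem_primeFactors hp).one_lt
    have h3 : (1 : ℝ) / p < 1 := (div_lt_one (by linarith)).2 h2
    have h4 : (0 : ℝ) < 1 / p := by positivity
    constructor <;> linarith
  have hρ0 : 0 < ρ := by
    rw [hρ]
    exact Finset.prod_pos fun p hp => (hfac p hp).1
  have hρ1 : ρ ≤ 1 := by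
    rw [hρ]
    exact Finset.prod_le_one (fun p hp => (hfac p hp).1.le) fun p hp => (hfac p hp).2
  have hPi : (∏ p ∈ N.primeFactors, (1 - 1 / (p : ℝ))⁻¹) = ρ⁻¹ := by
    rw [hρ, Finset.prod_inv_distrib]
  obtain ⟨CN, hCN, hZC⟩ := hZCF' N hN1 hNs
  obtain ⟨L₀, hL₀⟩ : ∃ L₀ : ℝ, L₀ = |Real.log η| := ⟨_, rfl⟩
  obtain ⟨C3, hC3, hMU⟩ := hMU3 P N κ L₀ hP hN1 hNs
  obtain ⟨z0, hz0⟩ : ∃ z0 : ℝ, z0 = P.eval 1 + 1 / (2 * θ) * P.derivative.eval 1 := ⟨_, rfl⟩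
  obtain ⟨e0, he0⟩ : ∃ e0 : ℝ, e0 = min 1 (ε / 9) := ⟨_, rfl⟩
  have he00 : 0 < e0 := by rw [he0]; exact lt_min one_pos (by positivity)
  obtain ⟨W2, hW2⟩ : ∃ W2 : ℝ, W2 = 3 * CE ^ 2 * (2 * CQ) * (K * ρ⁻¹ + K) ^ 2 := ⟨_, rfl⟩
  have hW20 : 0 < W2 := by rw [hW2]; positivity
  have hlt : Tendsto (fun X : ℝ => Real.log (X ^ θ)) atTop atTop :=
    Real.tendsto_log_atTop.comp (tendsto_rpow_atTop hθ)
  have hev : ∀ᶠ X : ℝ in atTop, 1 ≤ X ∧ 2 / e0 ≤ X ∧ 2 ≤ X ^ θ ∧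
      L₀ ≤ Real.log (X ^ θ) ∧ CN / K ≤ Real.log (X ^ θ) ∧ 1 ≤ Real.log (X ^ θ) ∧
      W2 / (ε / 3) ≤ Real.log (X ^ θ) ∧ 2 * (C3 + CE * C3) / e0 ≤ Real.log (X ^ θ) := by
    filter_upwards [eventually_ge_atTop 1, eventually_ge_atTop (2 / e0),
      (tendsto_rpow_atTop hθ).eventually_ge_atTop 2, hlt.eventually_ge_atTop L₀,
      hlt.eventually_ge_atTop (CN / K), hlt.eventually_ge_atTop 1,
      hlt.eventually_ge_atTop (W2 / (ε / 3)),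
      hlt.eventually_ge_atTop (2 * (C3 + CE * C3) / e0)] with X a2 a3 a4 a5 a6 a7 a8 a9
    exact ⟨a2, a3, a4, a5, a6, a7, a8, a9⟩
  obtain ⟨X₀, hX₀⟩ := eventually_atTop.1 hev
  refine ⟨X₀, fun X hX T Z w hT => ?_⟩
  obtain ⟨b2, b3, b4, b5, b6, b7, b8, b9⟩ := hX₀ X hX
  have hX0 : 0 < X := by linarith
  have hz : zP P θ = z0 := hz0.symm
  rw [hz]
  have hTI : T ⊆ Finset.Icc 1 ⌊X⌋₊ := by
    intro D hD
    obtain ⟨h1, h2, -⟩ := hT D hD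
    have h3 : (0 : ℝ) < D := lt_of_lt_of_le (by positivity) h1
    rw [Finset.mem_Icc]
    exact ⟨by exact_mod_cast h3, Nat.le_floor h2⟩
  obtain ⟨l, hl⟩ : ∃ l : ℝ, l = Real.log (X ^ θ) := ⟨_, rfl⟩
  rw [← hl] at b5 b6 b7 b8 b9
  have hl0 : 0 < l := by linarith
  obtain ⟨S, hS⟩ : ∃ S : Finset ℕ, S = (Finset.Icc 1 ⌊X ^ θ⌋₊).filter
    (fun r => Squarefree r ∧ Nat.Coprime r N) := ⟨_, rfl⟩
  have h1S : 1 ∈ S := by
    rw [hS, Finset.mem_filter, Finset.mem_Icc]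
    refine ⟨⟨le_rfl, ?_⟩, squarefree_one, Nat.coprime_one_left N⟩
    rw [Nat.one_le_floor_iff]
    linarith
  have hs : ∀ r ∈ S.erase 1, 2 ≤ r ∧ r ≤ ⌊X ^ θ⌋₊ ∧ Odd r ∧ Squarefree r := by
    intro r hr
    obtain ⟨h1, h2⟩ := Finset.mem_erase.1 hr
    rw [hS, Finset.mem_filter, Finset.mem_Icc] at h2
    obtain ⟨⟨h3, h4⟩, h5, h6⟩ := h2
    refine ⟨by omega, h4, ?_, h5⟩
    rw [← Nat.not_even_iff_odd, even_iff_two_dvd]
    intro h7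
    have h8 : 2 ∣ Nat.gcd r N := Nat.dvd_gcd h7 hN2
    rw [h6] at h8
    omega
  have hcop : ∀ r ∈ S.erase 1, Squarefree r ∧ Nat.Coprime r N ∧ 1 < r := by
    intro r hr
    have h3 := (hs r hr).1
    obtain ⟨h1, h2⟩ := Finset.mem_erase.1 hr
    rw [hS, Finset.mem_filter] at h2
    exact ⟨h2.2.1, h2.2.2, by omega⟩
  have hτ : ∑ r ∈ S.erase 1, (Ef r / r) ^ 2 ≤ min 1 (ε / 3 / W) :=
    htail R hR _ (by rw [← hN]; exact hcop)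
  obtain ⟨τ, hτd⟩ : ∃ τ : ℝ, τ = ∑ r ∈ S.erase 1, (Ef r / r) ^ 2 := ⟨_, rfl⟩
  rw [← hτd] at hτ
  have hτ0 : 0 ≤ τ := by rw [hτd]; exact Finset.sum_nonneg fun r _ => sq_nonneg _
  have hτ1 : τ ≤ 1 := hτ.trans (min_le_left _ _)
  have hτ2 : W * τ ≤ ε / 3 := by
    have := hτ.trans (min_le_right _ _)
    rw [le_div_iff₀ hW0] at this
    linarith
  -- the coefficients
  have hcoef : ∀ r ∈ S.erase 1, (l * A0 P (X ^ θ) N r) ^ 2 + A1 P (X ^ θ) N r ^ 2 ≤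
      (Ef r / r) ^ 2 * (K * ρ⁻¹ + CN / l) ^ 2 := by
    intro r hr
    obtain ⟨h1, h2, h3⟩ := hcop r hr
    have h4 := hZC (X ^ θ) r b4 h1 h2
    rw [hPi, ← hl] at h4
    rw [← mul_pow]
    have h5 : (l * A0 P (X ^ θ) N r) ^ 2 = (|A0 P (X ^ θ) N r| * l) ^ 2 := by
      rw [mul_pow, mul_pow, sq_abs, mul_comm]
    have h6 : A1 P (X ^ θ) N r ^ 2 = |A1 P (X ^ θ) N r| ^ 2 := (sq_abs _).symm
    rw [h5, h6]
    have h7 : 0 ≤ |A0 P (X ^ θ) N r| * l := by positivity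
    have h8 := abs_nonneg (A1 P (X ^ θ) N r)
    exact sq_add_le h7 h8 h4
  have hc1 : CN / l ≤ K := by
    rw [div_le_iff₀ hl0]
    rw [div_le_iff₀ hK] at b6
    linarith
  have hsum1 : ρ ^ 2 * ∑ r ∈ S.erase 1, ((l * A0 P (X ^ θ) N r) ^ 2 + A1 P (X ^ θ) N r ^ 2) ≤
      (2 * K) ^ 2 * τ := by
    have h1 : ρ * (K * ρ⁻¹ + CN / l) ≤ 2 * K := by
      have h2 : ρ * (K * ρ⁻¹) = K := by
        rw [mul_left_comm, mul_inv_cancel₀ hρ0.ne', mul_one]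
      have h3 : ρ * (CN / l) ≤ 1 * K := mul_le_mul hρ1 hc1 (by positivity) (by norm_num)
      rw [mul_add, h2]
      linarith
    calc ρ ^ 2 * ∑ r ∈ S.erase 1, ((l * A0 P (X ^ θ) N r) ^ 2 + A1 P (X ^ θ) N r ^ 2)
        ≤ ρ ^ 2 * ∑ r ∈ S.erase 1, (Ef r / r) ^ 2 * (K * ρ⁻¹ + CN / l) ^ 2 :=
          mul_le_mul_of_nonneg_left (Finset.sum_le_sum hcoef) (sq_nonneg _)
      _ = (ρ * (K * ρ⁻¹ + CN / l)) ^ 2 * τ := by
          rw [← Finset.sum_mul, ← hτd]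
          ring
      _ ≤ (2 * K) ^ 2 * τ := mul_le_mul_of_nonneg_right
          (pow_le_pow_left₀ (by positivity) h1 2) hτ0
  have hsum2 : ∑ r ∈ S.erase 1, A0 P (X ^ θ) N r ^ 2 ≤ (K * ρ⁻¹ + K) ^ 2 / l ^ 2 := by
    rw [le_div_iff₀ (by positivity)]
    calc (∑ r ∈ S.erase 1, A0 P (X ^ θ) N r ^ 2) * l ^ 2
        = ∑ r ∈ S.erase 1, (l * A0 P (X ^ θ) N r) ^ 2 := by
          rw [Finset.sum_mul]
          exact Finset.sum_congr rfl fun r _ => by ring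
      _ ≤ ∑ r ∈ S.erase 1, (Ef r / r) ^ 2 * (K * ρ⁻¹ + CN / l) ^ 2 :=
          Finset.sum_le_sum fun r hr => by
            have := hcoef r hr
            have h2 := sq_nonneg (A1 P (X ^ θ) N r)
            linarith
      _ = τ * (K * ρ⁻¹ + CN / l) ^ 2 := by rw [← Finset.sum_mul, ← hτd]
      _ ≤ 1 * (K * ρ⁻¹ + K) ^ 2 := mul_le_mul hτ1
          (pow_le_pow_left₀ (by positivity) (by linarith) 2) (by positivity) (by norm_num)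
      _ = _ := one_mul _
  -- pointwise
  have hpt : ∀ D ∈ T, (Z D - w D * z0) ^ 2 ≤
      6 * (κ + 1) ^ 2 * (ρ ^ 2 * ((l * ∑ r ∈ S.erase 1, xD r D * A0 P (X ^ θ) N r) ^ 2 +
        (∑ r ∈ S.erase 1, xD r D * A1 P (X ^ θ) N r) ^ 2)) +
      3 * CE ^ 2 * (∑ r ∈ S.erase 1, xD r D * A0 P (X ^ θ) N r) ^ 2 +
      3 * ((C3 + CE * C3) / l + X ^ (-1 : ℝ)) ^ 2 := by
    intro D hD
    obtain ⟨hD1, hD2, hw0, hw1, h1⟩ := hT D hD
    rw [← hN] at h1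
    have hD0 : (0 : ℝ) < D := lt_of_lt_of_le (by positivity) hD1
    rw [← hS, ← hρ] at h1
    have hx1 : xD 1 D = 1 := by
      unfold xD
      rw [Nat.primeFactors_one, Finset.prod_empty]
    rw [← Finset.add_sum_erase S (fun r => xD r D * A0 P (X ^ θ) N r) h1S,
      ← Finset.add_sum_erase S (fun r => xD r D * A1 P (X ^ θ) N r) h1S] at h1
    simp only [hx1, one_mul] at h1
    have hLM : |Real.log (Real.sqrt D) - κ * Real.log (X ^ θ)| ≤ L₀ := by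
      rw [Real.log_rpow hX0, Real.log_sqrt hD0.le, hκ]
      have h2 : Real.log D / 2 - 1 / (2 * θ) * (θ * Real.log X) =
          (Real.log D - Real.log X) / 2 := by
        field_simp
      rw [h2, hL₀]
      have h3 : Real.log η + Real.log X ≤ Real.log D := by
        rw [← Real.log_mul hη.ne' hX0.ne']
        exact Real.log_le_log (by positivity) hD1
      have h4 : Real.log D ≤ Real.log X := Real.log_le_log hD0 hD2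
      have h5 := neg_abs_le (Real.log η)
      have h6 := abs_nonneg (Real.log η)
      have h7 : |(Real.log D - Real.log X) / 2| ≤ |Real.log η| := by
        rw [abs_le]
        constructor <;> linarith
      exact h7
    obtain ⟨h2, h3⟩ := hMU (X ^ θ) (Real.log (Real.sqrt D)) b4 hLM
    have hA0 : A0 P (X ^ θ) N 1 = ∑ m ∈ Finset.Icc 1 ⌊X ^ θ⌋₊, cm P (X ^ θ) N m / m := by
      unfold A0
      rw [Finset.filter_true_of_mem fun _ _ => one_dvd _]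
    have hA1 : A1 P (X ^ θ) N 1 =
        ∑ m ∈ Finset.Icc 1 ⌊X ^ θ⌋₊, cm P (X ^ θ) N m / m * Real.log m := by
      unfold A1
      rw [Finset.filter_true_of_mem fun _ _ => one_dvd _]
    have h4 : ∑ m ∈ Finset.Icc 1 ⌊X ^ θ⌋₊, cm P (X ^ θ) N m / m *
        (Real.log (Real.sqrt D) - Real.log m) =
        Real.log (Real.sqrt D) * A0 P (X ^ θ) N 1 - A1 P (X ^ θ) N 1 := by
      rw [hA0, hA1, Finset.mul_sum, ← Finset.sum_sub_distrib]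
      exact Finset.sum_congr rfl fun m _ => by ring
    rw [h4, hPi, hκ, ← hz0, ← hl] at h3
    rw [← hA0, ← hl] at h2
    have hL : |Real.log (Real.sqrt D)| ≤ (κ + 1) * l := by
      rw [← hl] at hLM
      have h5 := abs_sub_abs_le_abs_sub (Real.log (Real.sqrt D)) (κ * l)
      rw [abs_of_nonneg (by positivity : 0 ≤ κ * l)] at h5
      linarith
    exact ptwW hw0 hw1 hρ0 hρ1 hCE.le h1 h2 h3 hL hκ0.le
  have hcard : ((T).card : ℝ) ≤ X := by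
    have h1 := Finset.card_le_card hTI
    rw [Nat.card_Icc, Nat.add_sub_cancel] at h1
    calc ((T).card : ℝ) ≤ (⌊X⌋₊ : ℝ) := by exact_mod_cast h1
      _ ≤ X := Nat.floor_le hX0.le
  have hE : (C3 + CE * C3) / l + X ^ (-1 : ℝ) ≤ e0 := by
    have h1 : (C3 + CE * C3) / l ≤ e0 / 2 := by
      rw [div_le_iff₀ hl0]
      rw [div_le_iff₀ he00] at b9
      linarith
    have h2 : X ^ (-1 : ℝ) ≤ e0 / 2 := by
      rw [Real.rpow_neg_one, inv_le_comm₀ hX0 (by positivity), inv_div]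
      exact b3
    linarith
  have hE0 : 0 ≤ (C3 + CE * C3) / l + X ^ (-1 : ℝ) := by positivity
  have hE2 : 3 * ((C3 + CE * C3) / l + X ^ (-1 : ℝ)) ^ 2 ≤ ε / 3 := by
    have h1 : e0 ≤ 1 := by rw [he0]; exact min_le_left _ _
    have h2 : e0 ≤ ε / 9 := by rw [he0]; exact min_le_right _ _
    exact sq_small hE0 hE h1 h2
  have hS0 := sieveT hCQ hQ hTI b2 hθ' (S.erase 1) hs (fun r => A0 P (X ^ θ) N r)
  have hS1 := sieveT hCQ hQ hTI b2 hθ' (S.erase 1) hs (fun r => A1 P (X ^ θ) N r)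
  have hS0' : ∑ D ∈ T, (l * ∑ r ∈ S.erase 1, xD r D * A0 P (X ^ θ) N r) ^ 2 ≤
      2 * CQ * X * ∑ r ∈ S.erase 1, (l * A0 P (X ^ θ) N r) ^ 2 := by
    have h1 := mul_le_mul_of_nonneg_left hS0 (sq_nonneg l)
    calc _ = l ^ 2 * ∑ D ∈ T, (∑ r ∈ S.erase 1, xD r D * A0 P (X ^ θ) N r) ^ 2 := by
          rw [Finset.mul_sum]
          exact Finset.sum_congr rfl fun D _ => mul_pow _ _ _
      _ ≤ _ := h1
      _ = 2 * CQ * X * (l ^ 2 * ∑ r ∈ S.erase 1, A0 P (X ^ θ) N r ^ 2) := by ring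
      _ = _ := by
          rw [Finset.mul_sum (a := l ^ 2)]
          congr 1
          exact Finset.sum_congr rfl fun r _ => (mul_pow _ _ _).symm
  have hfirst : 6 * (κ + 1) ^ 2 * (ρ ^ 2 * (∑ D ∈ T,
      (l * ∑ r ∈ S.erase 1, xD r D * A0 P (X ^ θ) N r) ^ 2 +
        ∑ D ∈ T, (∑ r ∈ S.erase 1, xD r D * A1 P (X ^ θ) N r) ^ 2)) ≤ ε / 3 * X := by
    have h1 : ρ ^ 2 * (∑ D ∈ T,
      (l * ∑ r ∈ S.erase 1, xD r D * A0 P (X ^ θ) N r) ^ 2 +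
        ∑ D ∈ T, (∑ r ∈ S.erase 1, xD r D * A1 P (X ^ θ) N r) ^ 2) ≤
        2 * CQ * X * ((2 * K) ^ 2 * τ) := by
      have h2 := mul_le_mul_of_nonneg_left (add_le_add hS0' hS1) (sq_nonneg ρ)
      refine h2.trans ?_
      have h3 := mul_le_mul_of_nonneg_left hsum1 (by positivity : 0 ≤ 2 * CQ * X)
      refine le_trans (le_of_eq ?_) h3
      rw [Finset.sum_add_distrib]
      ring
    have h4 := mul_le_mul_of_nonneg_left h1 (by positivity : 0 ≤ 6 * (κ + 1) ^ 2)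
    refine h4.trans ?_
    have h5 := mul_le_mul_of_nonneg_right hτ2 hX0.le
    refine le_trans (le_of_eq ?_) h5
    rw [hW]
    ring
  have hsecond : 3 * CE ^ 2 * ∑ D ∈ T, (∑ r ∈ S.erase 1, xD r D * A0 P (X ^ θ) N r) ^ 2 ≤
      ε / 3 * X := by
    have h1 := mul_le_mul_of_nonneg_left (hS0.trans (mul_le_mul_of_nonneg_left hsum2
      (by positivity : 0 ≤ 2 * CQ * X))) (by positivity : 0 ≤ 3 * CE ^ 2)
    refine h1.trans ?_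
    have h2 : W2 / l ^ 2 ≤ ε / 3 := div_sq_le (by positivity) b7 b8
    have h3 := mul_le_mul_of_nonneg_right h2 hX0.le
    refine le_trans (le_of_eq ?_) h3
    rw [hW2]
    ring
  calc ∑ D ∈ T, (Z D - w D * z0) ^ 2
      ≤ ∑ D ∈ T, (6 * (κ + 1) ^ 2 * (ρ ^ 2 *
        ((l * ∑ r ∈ S.erase 1, xD r D * A0 P (X ^ θ) N r) ^ 2 +
        (∑ r ∈ S.erase 1, xD r D * A1 P (X ^ θ) N r) ^ 2)) +
      3 * CE ^ 2 * (∑ r ∈ S.erase 1, xD r D * A0 P (X ^ θ) N r) ^ 2 +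
      3 * ((C3 + CE * C3) / l + X ^ (-1 : ℝ)) ^ 2) := Finset.sum_le_sum hpt
    _ = 6 * (κ + 1) ^ 2 * (ρ ^ 2 * (∑ D ∈ T,
      (l * ∑ r ∈ S.erase 1, xD r D * A0 P (X ^ θ) N r) ^ 2 +
        ∑ D ∈ T, (∑ r ∈ S.erase 1, xD r D * A1 P (X ^ θ) N r) ^ 2)) +
      3 * CE ^ 2 * ∑ D ∈ T, (∑ r ∈ S.erase 1, xD r D * A0 P (X ^ θ) N r) ^ 2 +
      (T).card * (3 * ((C3 + CE * C3) / l + X ^ (-1 : ℝ)) ^ 2) := by
        rw [Finset.sum_add_distrib, Finset.sum_add_distrib, ← Finset.mul_sum, ← Finset.mul_sum,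
          ← Finset.mul_sum, Finset.sum_add_distrib, Finset.sum_const, nsmul_eq_mul]
    _ ≤ ε / 3 * X + ε / 3 * X + X * (ε / 3) := by
        refine add_le_add (add_le_add hfirst hsecond) ?_
        exact mul_le_mul hcard hE2 (by positivity) hX0.le
    _ = ε * X := by ring



end Pool.Agent.H51.CFH
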